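import Pool.Agent.Lib.CMH2.Typ

/-!
# Alternating functions, Galois action, characters (helper51)
-/

open scoped ComplexConjugate Matrix
open Complex

namespace Pool.Agent.CMH

section chars

/-- The component of a family of vectors along a character lies in the span of the family. -/
theorem char_span {T R M : Type} [Finite T] [Fintype R] [Monoid M] (ψ : R → T → M →* ℂ)
    (K : R → T → ℂ) (ψ₀ : M →* ℂ) :
    (fun t => ∑ r, open Classical in if ψ r t = ψ₀ then K r t else 0) ∈
      Submodule.span ℂ (Set.range fun x : M => fun t => ∑ r, ψ r t x * K r t) := by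
  classical
  have := Fintype.ofFinite T
  by_contra hcon
  obtain ⟨lam, hl1, hl2⟩ := Submodule.exists_le_ker_of_notMem hcon
  apply hl1
  have hlam : ∀ v : T → ℂ, lam v = ∑ t, v t * lam (Pi.single t 1) := by
    intro v
    conv_lhs => rw [← Finset.univ_sum_single v, map_sum]
    refine Finset.sum_congr rfl fun t _ => ?_
    have : (Pi.single t (v t) : T → ℂ) = v t • Pi.single t (1 : ℂ) := by
      rw [← Pi.single_smul, smul_eq_mul, mul_one]
    rw [this, map_smul, smul_eq_mul]
  have hx : ∀ x : M, ∑ p : T × R, (K p.2 p.1 * lam (Pi.single p.1 1)) * ψ p.2 p.1 x = 0 := by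
    intro x
    have h1 : lam (fun t => ∑ r, ψ r t x * K r t) = 0 :=
      hl2 (Submodule.subset_span ⟨x, rfl⟩)
    rw [hlam] at h1
    rw [← h1, Fintype.sum_prod_type]
    refine Finset.sum_congr rfl fun t _ => ?_
    rw [Finset.sum_mul]
    refine Finset.sum_congr rfl fun r _ => ?_
    ring
  have hind := linearIndependent_monoidHom M ℂ
  rw [linearIndependent_iff] at hind
  have h2 := hind (∑ p : T × R, Finsupp.single (ψ p.2 p.1) (K p.2 p.1 * lam (Pi.single p.1 1))) (by
    rw [map_sum]
    simp only [Finsupp.linearCombination_single]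
    funext x
    simp only [Finset.sum_apply, Pi.smul_apply, smul_eq_mul, Pi.zero_apply]
    exact hx x)
  have h3 := congrArg (fun l : (M →* ℂ) →₀ ℂ => l ψ₀) h2
  simp only [Finsupp.coe_finsetSum, Finset.sum_apply, Finsupp.single_apply, Finsupp.coe_zero,
    Pi.zero_apply] at h3
  rw [hlam]
  refine Eq.trans ?_ h3
  rw [Fintype.sum_prod_type]
  refine Finset.sum_congr rfl fun t _ => ?_
  rw [Finset.sum_mul]
  refine Finset.sum_congr rfl fun r _ => ?_
  by_cases h : ψ r t = ψ₀
  · simp [h]
  · simp [h]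

end chars

variable {ι E : Type} [Field E]

/-- The alternating function with support in the permutations of `t`. -/
noncomputable def ee (t : Fin 4 → Idx ι E) : (Fin 4 → Idx ι E) → ℂ := fun t' =>
  ∑ π : Equiv.Perm (Fin 4), open Classical in
    if t' = t ∘ π then ((Equiv.Perm.sign π : ℤ) : ℂ) else 0

theorem alt_of_mem {u : (Fin 4 → Idx ι E) → ℂ} (hu : u ∈ H4Q ι E) (t : Fin 4 → Idx ι E)
    (π : Equiv.Perm (Fin 4)) : u (t ∘ π) = ((Equiv.Perm.sign π : ℤ) : ℂ) * u t := by
  induction hu using Submodule.span_induction with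
  | mem u hu =>
    obtain ⟨x, rfl⟩ := hu
    have h := Matrix.det_permute π (Matrix.of fun a b => (t a).2 (x b (t a).1))
    exact h
  | zero => simp
  | add u v _ _ hu hv => simp only [Pi.add_apply, hu, hv]; ring
  | smul q u _ hu => simp only [Pi.smul_apply, hu, Rat.smul_def]; ring

theorem gal_of_mem [NumberField E] (τ₀ : E →+* ℂ) {u : (Fin 4 → Idx ι E) → ℂ} (hu : u ∈ H4Q ι E)
    (i : Fin 4 → ι) (σ : Fin 4 → E ≃+* E) :
    ∃ U : E, ∀ g : E ≃+* E, u (fun a => (i a, gg τ₀ g (σ a))) = τ₀ (g U) := by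
  induction hu using Submodule.span_induction with
  | mem u hu =>
    obtain ⟨x, rfl⟩ := hu
    refine ⟨Matrix.det (Matrix.of fun a b => σ a (x b (i a))), fun g => ?_⟩
    have h := RingHom.map_det (τ₀.comp (g : E →+* E)) (Matrix.of fun a b => σ a (x b (i a)))
    exact h.symm
  | zero => exact ⟨0, fun g => by simp⟩
  | add u v _ _ hu hv =>
    obtain ⟨U, hU⟩ := hu
    obtain ⟨V, hV⟩ := hv
    exact ⟨U + V, fun g => by simp only [Pi.add_apply, hU, hV, map_add]⟩
  | smul q u _ hu =>
    obtain ⟨U, hU⟩ := hu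
    exact ⟨(q : E) * U, fun g => by
      simp only [Pi.smul_apply, hU, Rat.smul_def, map_mul, map_ratCast]⟩

/-- an alternating function is a combination of the `ee t` with `u t ≠ 0` -/
theorem mem_of_alt [Finite ι] [NumberField E] {u : (Fin 4 → Idx ι E) → ℂ}
    (hu : ∀ (t : Fin 4 → Idx ι E) (π : Equiv.Perm (Fin 4)),
      u (t ∘ π) = ((Equiv.Perm.sign π : ℤ) : ℂ) * u t)
    {S : Submodule ℂ ((Fin 4 → Idx ι E) → ℂ)} (hS : ∀ t, u t ≠ 0 → ee t ∈ S) : u ∈ S := by
  classical
  have := Fintype.ofFinite ι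
  have h1 : ∑ t, u t • ee t ∈ S := by
    refine Submodule.sum_mem _ fun t _ => ?_
    by_cases h : u t = 0
    · rw [h, zero_smul]; exact Submodule.zero_mem _
    · exact Submodule.smul_mem _ _ (hS t h)
  have h2 : ∑ t, u t • ee t = (24 : ℂ) • u := by
    funext t'
    simp only [Finset.sum_apply, Pi.smul_apply, smul_eq_mul, ee, Finset.mul_sum]
    rw [Finset.sum_comm]
    have h3 : ∀ π : Equiv.Perm (Fin 4), ∑ t : Fin 4 → Idx ι E,
        u t * (if t' = t ∘ π then ((Equiv.Perm.sign π : ℤ) : ℂ) else 0) = u t' := by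
      intro π
      rw [Finset.sum_eq_single (t' ∘ π.symm)]
      · rw [if_pos (by funext a; simp)]
        rw [hu, mul_right_comm]
        have h4 : ((Equiv.Perm.sign π.symm : ℤ) : ℂ) * ((Equiv.Perm.sign π : ℤ) : ℂ) = 1 := by
          rw [Equiv.Perm.sign_symm]
          rcases Int.units_eq_one_or (Equiv.Perm.sign π) with h | h <;> simp [h]
        rw [h4, one_mul]
      · intro t _ ht
        rw [if_neg, mul_zero]
        intro h
        apply ht
        rw [h]
        funext a
        simp
      · intro h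
        exact absurd (Finset.mem_univ _) h
    rw [Finset.sum_congr rfl fun π _ => h3 π]
    simp [Fintype.card_perm, Nat.factorial]
  have h3 : u = (1 / 24 : ℂ) • ∑ t, u t • ee t := by
    rw [h2, smul_smul]; norm_num
  rw [h3]
  exact Submodule.smul_mem _ _ h1

end Pool.Agent.CMH
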