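import Pool.Agent.Lib.CMH2.Mp

/-!
# The span of the classes of the sums of maps (helper51)
-/

open scoped ComplexConjugate Matrix
open Complex MeasureTheory

namespace Pool.Agent.CMH

variable {ι E : Type} [Field E]

/-- expansion of a determinant with rows which are sums -/
theorem det_rows_sum (c : Fin 4 → Fin 4 → ℂ) (v : Fin 4 → Fin 4 → Fin 4 → ℂ) :
    Matrix.det (Matrix.of fun a => ∑ s, c a s • v a s) =
      ∑ r : Fin 4 → Fin 4, (∏ a, c a (r a)) * Matrix.det (Matrix.of fun a => v a (r a)) := by
  have h1 := (Matrix.detRowAlternating (n := Fin 4) (R := ℂ)).toMultilinearMap.map_sum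
    (fun a s => c a s • v a s)
  refine h1.trans (Finset.sum_congr rfl fun r _ => ?_)
  have h2 := (Matrix.detRowAlternating (n := Fin 4) (R := ℂ)).toMultilinearMap.map_smul_univ
    (fun a => c a (r a)) (fun a => v a (r a))
  exact h2

open Classical in
/-- the characters which occur -/
noncomputable def psi (r : Fin 4 → Fin 4) (t : Fin 4 → Idx ι E) :
    (Fin 4 → NumberField.RingOfIntegers E) →* ℂ :=
  ∏ a, (((t a).2 : E →* ℂ).comp
    ((algebraMap (NumberField.RingOfIntegers E) E : NumberField.RingOfIntegers E →* E))).comp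
      (Pi.evalMonoidHom _ (r a))

theorem psi_apply (r : Fin 4 → Fin 4) (t : Fin 4 → Idx ι E)
    (x : Fin 4 → NumberField.RingOfIntegers E) :
    psi r t x = ∏ a, (t a).2 (x (r a) : E) := by
  unfold psi
  rw [MonoidHom.finsetProd_apply]
  rfl

theorem psi_eq_iff [NumberField E] (r : Fin 4 → Fin 4) (t t' : Fin 4 → Idx ι E) :
    psi r t' = psi id t ↔ ∃ π : Equiv.Perm (Fin 4), r = π ∧ ∀ a, (t' a).2 = (t (π a)).2 := by
  classical
  constructor
  · intro h
    have h0 : ∀ x : Fin 4 → NumberField.RingOfIntegers E,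
        ∏ a, (t' a).2 (x (r a) : E) = ∏ a, (t a).2 (x a : E) := by
      intro x
      have := congrArg (fun k : _ →* ℂ => k x) h
      simp only [psi_apply, id] at this
      exact this
    have hsurj : Function.Surjective r := by
      intro s
      by_contra hs
      push Not at hs
      have h1 := h0 (Function.update 1 s 2)
      have h2 : ∏ a, (t' a).2 ((Function.update (1 : Fin 4 → NumberField.RingOfIntegers E) s 2
          (r a) : NumberField.RingOfIntegers E) : E) = 1 := by
        apply Finset.prod_eq_one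
        intro a _
        rw [Function.update_of_ne (hs a)]
        simp
      have h3 : ∏ a, (t a).2 ((Function.update (1 : Fin 4 → NumberField.RingOfIntegers E) s 2
          a : NumberField.RingOfIntegers E) : E) = 2 := by
        rw [Finset.prod_eq_single s]
        · rw [Function.update_self]
          have h4 : ((2 : NumberField.RingOfIntegers E) : E) = 2 :=
            map_ofNat (algebraMap (NumberField.RingOfIntegers E) E) 2
          rw [h4, map_ofNat]
        · intro a _ ha
          rw [Function.update_of_ne ha]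
          simp
        · intro h; exact absurd (Finset.mem_univ _) h
      rw [h2, h3] at h1
      norm_num at h1
    have hbij : Function.Bijective r := Finite.surjective_iff_bijective.1 hsurj
    refine ⟨Equiv.ofBijective r hbij, rfl, fun a => ?_⟩
    change (t' a).2 = (t (r a)).2
    have h4 : ∀ z : NumberField.RingOfIntegers E, (t' a).2 (z : E) = (t (r a)).2 (z : E) := by
      intro z
      have h1 := h0 (Function.update 1 (r a) z)
      have h2 : ∏ b, (t' b).2 ((Function.update (1 : Fin 4 → NumberField.RingOfIntegers E) (r a) z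
          (r b) : NumberField.RingOfIntegers E) : E) = (t' a).2 (z : E) := by
        rw [Finset.prod_eq_single a]
        · rw [Function.update_self]
        · intro b _ hb
          rw [Function.update_of_ne (fun h => hb (hbij.1 h))]
          simp
        · intro h; exact absurd (Finset.mem_univ _) h
      have h3 : ∏ b, (t b).2 ((Function.update (1 : Fin 4 → NumberField.RingOfIntegers E) (r a) z
          b : NumberField.RingOfIntegers E) : E) = (t (r a)).2 (z : E) := by
        rw [Finset.prod_eq_single (r a)]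
        · rw [Function.update_self]
        · intro b _ hb
          rw [Function.update_of_ne hb]
          simp
        · intro h; exact absurd (Finset.mem_univ _) h
      rw [h2, h3] at h1
      exact h1
    apply IsFractionRing.ringHom_ext (A := NumberField.RingOfIntegers E)
    exact h4
  · rintro ⟨π, rfl, h⟩
    refine MonoidHom.ext fun x => ?_
    rw [psi_apply, psi_apply]
    simp only [h, id]
    exact Equiv.prod_comp π (fun b => (t b).2 (x b : E))

section

variable {k : Fin 3 → ℝ} {Γ : Subgroup SL3} {Φ : ι → Set (E →+* ℂ)} {χ : (Fin 2 → ℂ) → ℝ}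
  {t : Fin 4 → Idx ι E} {f : Fin 4 → (E →+* ℂ) → (Fin 2 → ℂ) → ℂ} {ℓ : Fin 4 → SL3 → E}

open Classical in
/-- the integrals which occur as coefficients -/
noncomputable def KK (Φ : ι → Set (E →+* ℂ)) (χ : (Fin 2 → ℂ) → ℝ) (t : Fin 4 → Idx ι E)
    (f : Fin 4 → (E →+* ℂ) → (Fin 2 → ℂ) → ℂ) (r : Fin 4 → Fin 4) (t' : Fin 4 → Idx ι E) : ℂ :=
  if ∀ a, (t (r a)).1 = (t' a).1 then
    ∫ y : Fin 2 → ℂ, (χ y : ℂ) *
      Matrix.det (Matrix.of fun a => pull (Φ (t' a).1) (f (r a)) (t' a).2 y)
  else 0

theorem det_cont (hΦ : ∀ j, IsCMType (Φ j)) (hf : ∀ s, IsMap k Γ (Φ (t s).1) (f s) (ℓ s))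
    {r : Fin 4 → Fin 4} {t' : Fin 4 → Idx ι E} (h : ∀ a, (t (r a)).1 = (t' a).1) :
    ContinuousOn (fun y => Matrix.det (Matrix.of fun a => pull (Φ (t' a).1) (f (r a)) (t' a).2 y))
      (ball k) := by
  have h1 : ∀ a, ContinuousOn (pull (Φ (t' a).1) (f (r a)) (t' a).2) (ball k) := by
    intro a
    exact pull_cont (j := (t' a).1) hΦ (by rw [← h a]; exact hf (r a)) _
  have h2 : Continuous fun M : Matrix (Fin 4) (Fin 4) ℂ => M.det :=
    Continuous.matrix_det continuous_id
  refine h2.comp_continuousOn (s := ball k)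
    (f := fun y => Matrix.of fun a => pull (Φ (t' a).1) (f (r a)) (t' a).2 y) ?_
  refine continuousOn_pi.2 fun a => ?_
  exact h1 a

theorem cls_fx (hΦ : ∀ j, IsCMType (Φ j)) (hχ : IsWt k Γ χ)
    (hf : ∀ s, IsMap k Γ (Φ (t s).1) (f s) (ℓ s)) (x : Fin 4 → NumberField.RingOfIntegers E)
    (t' : Fin 4 → Idx ι E) :
    cls Φ χ (fx (fun s => (t s).1) f (fun s => (x s : E))) t' = ∑ r, psi r t' x * KK Φ χ t f r t' := by
  classical
  unfold cls
  set g : (Fin 4 → Fin 4) → (Fin 2 → ℂ) → ℂ := fun r y =>
    Matrix.det (Matrix.of fun a => pull (Φ (t' a).1) (f (r a)) (t' a).2 y) with hg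
  have e1 : ∀ y, (χ y : ℂ) * Matrix.det (Matrix.of fun a => pull (Φ (t' a).1)
      (fx (fun s => (t s).1) f (fun s => (x s : E)) (t' a).1) (t' a).2 y) =
      ∑ r : Fin 4 → Fin 4, psi r t' x *
        (if ∀ a, (t (r a)).1 = (t' a).1 then (χ y : ℂ) * g r y else 0) := by
    intro y
    by_cases hy : y ∈ ball k
    · simp only [pull_fx (i := fun s => (t s).1) hΦ hf _ _ _ hy]
      rw [det_rows_sum, Finset.mul_sum]
      refine Finset.sum_congr rfl fun r _ => ?_
      by_cases h : ∀ a, (t (r a)).1 = (t' a).1
      · rw [if_pos h, psi_apply]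
        have : ∀ a, (if (t (r a)).1 = (t' a).1 then (t' a).2 (x (r a) : E) else 0) =
            (t' a).2 (x (r a) : E) := fun a => if_pos (h a)
        simp only [this]
        ring
      · rw [if_neg h, mul_zero]
        push Not at h
        obtain ⟨a, ha⟩ := h
        rw [Finset.prod_eq_zero (Finset.mem_univ a) (if_neg ha)]
        ring
    · have h0 : χ y = 0 := by
        by_contra h1
        exact hy (hχ.supp (subset_tsupport _ h1))
      simp [h0]
  have e2 : ∀ r : Fin 4 → Fin 4, KK Φ χ t f r t' =
      ∫ y : Fin 2 → ℂ, (if ∀ a, (t (r a)).1 = (t' a).1 then (χ y : ℂ) * g r y else 0) := by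
    intro r
    unfold KK
    by_cases h : ∀ a, (t (r a)).1 = (t' a).1
    · simp only [if_pos h, hg]
    · simp only [if_neg h, integral_zero]
  simp only [e1]
  rw [integral_finsetSum]
  · refine Finset.sum_congr rfl fun r _ => ?_
    rw [integral_const_mul, e2]
  · intro r _
    apply Integrable.const_mul
    by_cases h : ∀ a, (t (r a)).1 = (t' a).1
    · simp only [if_pos h]
      exact int_wt hχ (det_cont hΦ hf h)
    · simp only [if_neg h]
      exact integrable_zero _ _ _

/-- If the integral of `f^* (dz_{t 0} ∧ ... ∧ dz_{t 3})` is not zero, then `ee t` is a combination of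
the classes of the maps `∑ x_s f_s`. -/
theorem ee_mem [NumberField E] [Finite ι] (hΦ : ∀ j, IsCMType (Φ j)) (hχ : IsWt k Γ χ)
    (hf : ∀ s, IsMap k Γ (Φ (t s).1) (f s) (ℓ s))
    (hJ : ∫ y : Fin 2 → ℂ, (χ y : ℂ) *
      Matrix.det (Matrix.of fun a => pull (Φ (t a).1) (f a) (t a).2 y) ≠ 0) :
    ee t ∈ Submodule.span ℂ (Set.range fun x : Fin 4 → NumberField.RingOfIntegers E =>
      cls Φ χ (fx (fun s => (t s).1) f (fun s => (x s : E)))) := by
  classical
  set J := ∫ y : Fin 2 → ℂ, (χ y : ℂ) *
      Matrix.det (Matrix.of fun a => pull (Φ (t a).1) (f a) (t a).2 y) with hJdef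
  have h1 := char_span (psi (E := E) (ι := ι)) (KK Φ χ t f) (psi id t)
  have h2 : (fun x : Fin 4 → NumberField.RingOfIntegers E => fun t' =>
      ∑ r, psi r t' x * KK Φ χ t f r t') =
      fun x => cls Φ χ (fx (fun s => (t s).1) f (fun s => (x s : E))) := by
    funext x t'
    exact (cls_fx hΦ hχ hf x t').symm
  rw [h2] at h1
  have h3 : (fun t' => ∑ r, if psi r t' = psi id t then KK Φ χ t f r t' else 0) = J • ee t := by
    funext t'
    have h4 := Fintype.sum_of_injective (fun π : Equiv.Perm (Fin 4) => (π : Fin 4 → Fin 4))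
      DFunLike.coe_injective
      (fun π : Equiv.Perm (Fin 4) =>
        if psi (π : Fin 4 → Fin 4) t' = psi id t then KK Φ χ t f π t' else 0)
      (fun r => if psi r t' = psi id t then KK Φ χ t f r t' else 0) (by
        intro r hr
        rw [if_neg]
        intro h
        obtain ⟨π, hπ, -⟩ := (psi_eq_iff r t t').1 h
        exact hr ⟨π, hπ.symm⟩) (fun π => rfl)
    rw [← h4, Pi.smul_apply, smul_eq_mul, ee, Finset.mul_sum]
    refine Finset.sum_congr rfl fun π _ => ?_
    by_cases h : t' = t ∘ π
    · subst h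
      have hpsi : psi (π : Fin 4 → Fin 4) (t ∘ π) = psi id t :=
        (psi_eq_iff _ _ _).2 ⟨π, rfl, fun a => rfl⟩
      rw [if_pos hpsi, if_pos rfl]
      unfold KK
      have hmt : ∀ a : Fin 4, (t (π a)).1 = ((t ∘ π) a).1 := fun a => rfl
      rw [if_pos hmt, hJdef, mul_comm, ← integral_const_mul]
      congr 1
      funext y
      have h5 := Matrix.det_permute π (Matrix.of fun a => pull (Φ (t a).1) (f a) (t a).2 y)
      have h6 : (Matrix.of fun a => pull (Φ ((t ∘ π) a).1) (f (π a)) ((t ∘ π) a).2 y) =
          (Matrix.of fun a => pull (Φ (t a).1) (f a) (t a).2 y).submatrix π id := rfl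
      rw [h6, h5]
      ring
    · rw [if_neg h, mul_zero]
      by_cases h7 : psi (π : Fin 4 → Fin 4) t' = psi id t
      · rw [if_pos h7]
        obtain ⟨π', hπ', h8⟩ := (psi_eq_iff _ _ _).1 h7
        have h9 : π = π' := DFunLike.coe_injective hπ'
        subst h9
        unfold KK
        rw [if_neg]
        intro h10
        apply h
        funext a
        exact Prod.ext (h10 a).symm (h8 a)
      · rw [if_neg h7]
  have h4 : ee t = J⁻¹ • (J • ee t) := by rw [smul_smul, inv_mul_cancel₀ hJ, one_smul]
  rw [h4, ← h3]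
  refine Submodule.smul_mem _ _ ?_
  convert h1

end

end Pool.Agent.CMH
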