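import Pool.Agent.Lib.CMH2.Cl

/-!
# Two-dimensional Hodge classes on abelian varieties of CM type (helper51)
-/

open scoped ComplexConjugate Matrix
open Complex MeasureTheory

namespace Pool.Agent.CMH

section small

theorem exists_sort (b : Fin 4 → Bool) (hb : (Finset.univ.filter (fun a => b a = true)).card = 2) :
    ∃ π : Equiv.Perm (Fin 4), b (π 0) = true ∧ b (π 1) = true ∧ b (π 2) = false ∧
      b (π 3) = false := by
  revert b
  decide

theorem det_four (a b c d e f g h : ℂ) :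
    Matrix.det (Matrix.of ![![a, b, 0, 0], ![c, d, 0, 0], ![0, 0, e, f], ![0, 0, g, h]]) =
      (a * d - b * c) * (e * h - f * g) := by
  simp [Matrix.det_succ_row_zero, Fin.sum_univ_succ, Fin.succAbove]
  ring

theorem wsum {J J' : ℕ} (c X Y : Fin J → ℂ) (c' X' Y' : Fin J' → ℂ) :
    (∑ j, c j * X j) * (∑ j, c' j * Y' j) - (∑ j, c j * Y j) * (∑ j, c' j * X' j) =
      ∑ p : Fin J × Fin J', (c p.1 * c' p.2) * (X p.1 * Y' p.2 - Y p.1 * X' p.2) := by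
  rw [Finset.sum_mul_sum, Finset.sum_mul_sum, Fintype.sum_prod_type, ← Finset.sum_sub_distrib]
  refine Finset.sum_congr rfl fun j _ => ?_
  rw [← Finset.sum_sub_distrib]
  refine Finset.sum_congr rfl fun j' _ => ?_
  ring

end small

theorem ee_comp {ι E : Type} [Field E] (t : Fin 4 → Idx ι E) (π : Equiv.Perm (Fin 4)) :
    ee (t ∘ π) = ((Equiv.Perm.sign π : ℤ) : ℂ) • ee t := by
  classical
  funext t'
  rw [Pi.smul_apply, smul_eq_mul, ee, ee, Finset.mul_sum]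
  rw [← Equiv.sum_comp (Equiv.mulLeft π) (fun ρ : Equiv.Perm (Fin 4) =>
    ((Equiv.Perm.sign π : ℤ) : ℂ) * if t' = t ∘ ρ then ((Equiv.Perm.sign ρ : ℤ) : ℂ) else 0)]
  refine Finset.sum_congr rfl fun ρ _ => ?_
  simp only [Equiv.coe_mulLeft, Equiv.Perm.coe_mul, Equiv.Perm.sign_mul, Units.val_mul, Int.cast_mul]
  have h1 : (t' = (t ∘ π) ∘ ρ) = (t' = t ∘ (π ∘ ρ)) := rfl
  by_cases h : t' = t ∘ (π ∘ ρ)
  · rw [if_pos h, if_pos (h1 ▸ h)]
    rcases Int.units_eq_one_or (Equiv.Perm.sign π) with h2 | h2 <;> simp [h2]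
  · rw [if_neg h, if_neg (h1 ▸ h), mul_zero]

variable {F E : Type} [Field F] [NumberField F] [Field E] [NumberField E] [Algebra F E]
  {D : F} {δ : E} {v₁ : F →+* ℝ} {τ₀ : E →+* ℂ}

/-- a theta form as a combination of pulled back forms, at a given eigenline -/
theorem theta_pull (H : CMData F E D δ v₁ τ₀) (p2 : P2) {Φ : Set (E →+* ℂ)} (hΦ : IsCMType Φ)
    {σ : E ≃+* E} {h : Fin 3 → F} {Γ : Subgroup SL3} {a : F} {φ : (Fin 3 → F) → ℂ}
    (h1 : ∀ v : F →+* ℝ, 0 < v (h 0) ∧ 0 < v (h 1)) (h2 : v₁ (h 2) < 0)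
    (h3 : ∀ v, v ≠ v₁ → 0 < v (h 2)) (hA : IsArith v₁ D h Γ) (ha : 0 < v₁ a) (hφ : IsSB φ)
    (hI : InvOne (ev v₁ h) Γ (theta v₁ D h a φ)) (hs : sgn a = sv F δ τ₀ Φ σ) :
    ∃ (J : ℕ) (c : Fin J → ℂ) (f : Fin J → (E →+* ℂ) → (Fin 2 → ℂ) → ℂ) (ℓ : Fin J → SL3 → E),
      (∀ j, IsMap (ev v₁ h) Γ Φ (f j) (ℓ j)) ∧
      ∀ y ∈ ball (ev v₁ h), ∀ i, theta v₁ D h a φ i y =
        ∑ j, c j * fderiv ℂ (f j (τ₀.comp (σ : E →+* E))) y (Pi.single i 1) := by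
  have ha0 : a ≠ 0 := by
    rintro rfl
    rw [map_zero] at ha
    exact lt_irrefl _ ha
  obtain ⟨J, c, p, ℓ, hp, hθ⟩ := p2 F E D δ v₁ τ₀ H h Γ a φ h1 h2 h3 hA ha hφ hI
  refine ⟨J, c, fun j τ => p j (τ.comp (σ.symm : E →+* E)), fun j γ => σ.symm (ℓ j γ),
    fun j => map_transfer H hΦ ha0 hs (hp j), ?_⟩
  have e : (τ₀.comp (σ : E →+* E)).comp (σ.symm : E →+* E) = τ₀ := by
    ext x
    simp
  simp only [e]
  exact hθ

/-- the sign vectors are balanced -/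
theorem balanced_sv (H : CMData F E D δ v₁ τ₀) {ι : Type} {Φ : ι → Set (E →+* ℂ)}
    {t : Fin 4 → Idx ι E} {σ : Fin 4 → E ≃+* E}
    (hb : ∀ g : E ≃+* E, {a | gg τ₀ g (σ a) ∈ Φ (t a).1}.ncard = 2) :
    Balanced ({sv F δ τ₀ (Φ (t 0).1) (σ 0), sv F δ τ₀ (Φ (t 1).1) (σ 1),
      sv F δ τ₀ (Φ (t 2).1) (σ 2), sv F δ τ₀ (Φ (t 3).1) (σ 3)} : Multiset (CMType F)) := by
  classical
  intro v
  obtain ⟨g, hg1, hg2⟩ := exists_place H v
  have h1 := hb g
  have h2 : {a | gg τ₀ g (σ a) ∈ Φ (t a).1} =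
      {a | sv F δ τ₀ (Φ (t a).1) (σ a) v = true} := by
    ext a
    exact (sv_iff H (Φ (t a).1) (σ a) g hg1 hg2).symm
  rw [h2, Set.ncard_eq_toFinset_card'] at h1
  simp only [Set.toFinset_ofPred, Finset.card_filter, Fin.sum_univ_four] at h1
  simp only [Multiset.insert_eq_cons, Multiset.countP_cons, ← Multiset.cons_zero,
    Multiset.countP_zero]
  cases h3 : sv F δ τ₀ (Φ (t 0).1) (σ 0) v <;> cases h4 : sv F δ τ₀ (Φ (t 1).1) (σ 1) v <;>
    cases h5 : sv F δ τ₀ (Φ (t 2).1) (σ 2) v <;> cases h6 : sv F δ τ₀ (Φ (t 3).1) (σ 3) v <;>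
    simp_all

/-- the case of sorted indices -/
theorem ee_mem_sorted (hS : SURF) (p2 : P2) (H : CMData F E D δ v₁ τ₀) {ι : Type} [Finite ι]
    {Φ : ι → Set (E →+* ℂ)} (hΦ : ∀ i, IsCMType (Φ i)) {t : Fin 4 → Idx ι E}
    {σ : Fin 4 → E ≃+* E} (hσ : ∀ a, (t a).2 = τ₀.comp (σ a : E →+* E))
    (hb : ∀ g : E ≃+* E, {a | gg τ₀ g (σ a) ∈ Φ (t a).1}.ncard = 2)
    (h0 : (t 0).2 ∈ Φ (t 0).1) (h1 : (t 1).2 ∈ Φ (t 1).1) (h2 : (t 2).2 ∉ Φ (t 2).1)
    (h3 : (t 3).2 ∉ Φ (t 3).1) : ee t ∈ Submodule.span ℂ (SurfCl v₁ D Φ) := by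
  classical
  obtain ⟨c, hc, hcc⟩ := H.exists_conj
  have := H.real
  -- values at `v₁`
  have hv1 : ∀ a, sv F δ τ₀ (Φ (t a).1) (σ a) v₁ = true ↔ (t a).2 ∈ Φ (t a).1 := by
    intro a
    have := sv_iff H (Φ (t a).1) (σ a) (RingEquiv.refl E) (v := v₁) H.above H.upper
    rw [this, hσ a]
    have e : gg τ₀ (RingEquiv.refl E) (σ a) = τ₀.comp (σ a : E →+* E) := by
      ext x; rfl
    rw [e]
  have hfalse : ∀ a, (t a).2 ∉ Φ (t a).1 → sv F δ τ₀ (Φ (t a).1) (σ a) v₁ = false := by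
    intro a ha
    rw [← hv1] at ha
    exact Bool.eq_false_iff.2 ha
  obtain ⟨h, Γ, a, b, φ, ψ, hs1, hs2, hs3, hab, sa0, sa1, sb0, sb1, hSB, hAr, hCo, hcl, ⟨χ, hχ⟩,
    hint⟩ := hS F v₁ D (sv F δ τ₀ (Φ (t 0).1) (σ 0)) (sv F δ τ₀ (Φ (t 1).1) (σ 1))
      (sv F δ τ₀ (Φ (t 2).1) (σ 2)) (sv F δ τ₀ (Φ (t 3).1) (σ 3)) H.int H.pos H.two
      ((hv1 0).2 h0) ((hv1 1).2 h1) (hfalse 2 h2) (hfalse 3 h3) (balanced_sv H hb)
  rw [bar_sv H hc (hΦ _)] at sb0 sb1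
  obtain ⟨J0, c0, f0, l0, hm0, ht0⟩ := theta_pull H p2 (hΦ (t 0).1) hs1 hs2 hs3 hAr (hab 0).1
    (hSB 0).1 (hcl 0).2.2.1 sa0
  obtain ⟨J1, c1, f1, l1, hm1, ht1⟩ := theta_pull H p2 (hΦ (t 1).1) hs1 hs2 hs3 hAr (hab 1).1
    (hSB 1).1 (hcl 1).2.2.1 sa1
  obtain ⟨J2, c2, f2, l2, hm2, ht2⟩ := theta_pull H p2 (hΦ (t 2).1) hs1 hs2 hs3 hAr (hab 0).2
    (hSB 0).2 (hcl 0).2.2.2 sb0
  obtain ⟨J3, c3, f3, l3, hm3, ht3⟩ := theta_pull H p2 (hΦ (t 3).1) hs1 hs2 hs3 hAr (hab 1).2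
    (hSB 1).2 (hcl 1).2.2.2 sb1
  rw [← hσ 0] at ht0
  rw [← hσ 1] at ht1
  have hcj : ∀ a, τ₀.comp ((σ a).trans c : E →+* E) = cj (t a).2 := by
    intro a
    rw [hσ a]
    ext x
    have h4 := congrArg (fun k : E →+* ℂ => k (σ a x)) (hc τ₀)
    simp only [cj_apply, RingHom.comp_apply, RingHom.coe_coe] at h4
    simp only [cj_apply, RingHom.comp_apply, RingHom.coe_coe, RingEquiv.coe_trans,
      Function.comp_apply]
    exact h4.symm
  rw [hcj 2] at ht2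
  rw [hcj 3] at ht3
  -- the maps
  let P := (Fin J0 × Fin J1) × (Fin J2 × Fin J3)
  let ff : P → Fin 4 → (E →+* ℂ) → (Fin 2 → ℂ) → ℂ :=
    fun p => ![f0 p.1.1, f1 p.1.2, f2 p.2.1, f3 p.2.2]
  let ll : P → Fin 4 → SL3 → E := fun p => ![l0 p.1.1, l1 p.1.2, l2 p.2.1, l3 p.2.2]
  have hmap : ∀ p s, IsMap (ev v₁ h) Γ (Φ (t s).1) (ff p s) (ll p s) := by
    intro p s
    fin_cases s
    · exact hm0 _
    · exact hm1 _
    · exact hm2 _
    · exact hm3 _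
  let DD : P → (Fin 2 → ℂ) → ℂ := fun p y =>
    Matrix.det (Matrix.of fun a => pull (Φ (t a).1) (ff p a) (t a).2 y)
  let CC : P → ℂ := fun p => (c0 p.1.1 * c1 p.1.2) * (conj (c2 p.2.1) * conj (c3 p.2.2))
  have hDD : ∀ p y, DD p y =
      (fderiv ℂ (f0 p.1.1 (t 0).2) y (Pi.single 0 1) * fderiv ℂ (f1 p.1.2 (t 1).2) y (Pi.single 1 1)
        - fderiv ℂ (f0 p.1.1 (t 0).2) y (Pi.single 1 1) *
          fderiv ℂ (f1 p.1.2 (t 1).2) y (Pi.single 0 1)) *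
      (conj (fderiv ℂ (f2 p.2.1 (cj (t 2).2)) y (Pi.single 0 1)) *
          conj (fderiv ℂ (f3 p.2.2 (cj (t 3).2)) y (Pi.single 1 1))
        - conj (fderiv ℂ (f2 p.2.1 (cj (t 2).2)) y (Pi.single 1 1)) *
          conj (fderiv ℂ (f3 p.2.2 (cj (t 3).2)) y (Pi.single 0 1))) := by
    intro p y
    rw [← det_four]
    change Matrix.det (Matrix.of fun a => pull (Φ (t a).1) (ff p a) (t a).2 y) = _
    congr 2
    funext a
    fin_cases a
    · exact if_pos h0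
    · exact if_pos h1
    · exact if_neg h2
    · exact if_neg h3
  have hsum : ∀ y ∈ ball (ev v₁ h),
      wedge (theta v₁ D h (a 0) (φ 0)) (theta v₁ D h (a 1) (φ 1)) y *
        conj (wedge (theta v₁ D h (b 0) (ψ 0)) (theta v₁ D h (b 1) (ψ 1)) y) =
      ∑ p : P, CC p * DD p y := by
    intro y hy
    have e1 := wsum c0 (fun j => fderiv ℂ (f0 j (t 0).2) y (Pi.single 0 1))
      (fun j => fderiv ℂ (f0 j (t 0).2) y (Pi.single 1 1)) c1
      (fun j => fderiv ℂ (f1 j (t 1).2) y (Pi.single 0 1))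
      (fun j => fderiv ℂ (f1 j (t 1).2) y (Pi.single 1 1))
    have e2 := wsum (fun j => conj (c2 j))
      (fun j => conj (fderiv ℂ (f2 j (cj (t 2).2)) y (Pi.single 0 1)))
      (fun j => conj (fderiv ℂ (f2 j (cj (t 2).2)) y (Pi.single 1 1))) (fun j => conj (c3 j))
      (fun j => conj (fderiv ℂ (f3 j (cj (t 3).2)) y (Pi.single 0 1)))
      (fun j => conj (fderiv ℂ (f3 j (cj (t 3).2)) y (Pi.single 1 1)))
    have e3 : wedge (theta v₁ D h (a 0) (φ 0)) (theta v₁ D h (a 1) (φ 1)) y =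
        ∑ p : Fin J0 × Fin J1, (c0 p.1 * c1 p.2) *
          (fderiv ℂ (f0 p.1 (t 0).2) y (Pi.single 0 1) * fderiv ℂ (f1 p.2 (t 1).2) y (Pi.single 1 1)
          - fderiv ℂ (f0 p.1 (t 0).2) y (Pi.single 1 1) *
            fderiv ℂ (f1 p.2 (t 1).2) y (Pi.single 0 1)) := by
      rw [← e1]
      unfold wedge
      rw [ht0 y hy, ht0 y hy, ht1 y hy, ht1 y hy]
    have e4 : conj (wedge (theta v₁ D h (b 0) (ψ 0)) (theta v₁ D h (b 1) (ψ 1)) y) =
        ∑ p : Fin J2 × Fin J3, (conj (c2 p.1) * conj (c3 p.2)) *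
          (conj (fderiv ℂ (f2 p.1 (cj (t 2).2)) y (Pi.single 0 1)) *
            conj (fderiv ℂ (f3 p.2 (cj (t 3).2)) y (Pi.single 1 1))
          - conj (fderiv ℂ (f2 p.1 (cj (t 2).2)) y (Pi.single 1 1)) *
            conj (fderiv ℂ (f3 p.2 (cj (t 3).2)) y (Pi.single 0 1))) := by
      rw [← e2]
      unfold wedge
      rw [ht2 y hy, ht2 y hy, ht3 y hy, ht3 y hy]
      simp only [map_sub, map_mul, map_sum]
    rw [e3, e4, Finset.sum_mul_sum]
    refine Eq.trans ?_ (Fintype.sum_prod_type (fun p : P => CC p * DD p y)).symm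
    refine Finset.sum_congr rfl fun p _ => Finset.sum_congr rfl fun q _ => ?_
    rw [hDD]
    ring
  -- one term is not zero
  have hne : ∃ p : P, ∫ y : Fin 2 → ℂ, (χ y : ℂ) * DD p y ≠ 0 := by
    have h4 := hint χ hχ
    have h5 : ∫ y : Fin 2 → ℂ, (χ y : ℂ) *
        (wedge (theta v₁ D h (a 0) (φ 0)) (theta v₁ D h (a 1) (φ 1)) y *
          conj (wedge (theta v₁ D h (b 0) (ψ 0)) (theta v₁ D h (b 1) (ψ 1)) y)) =
        ∑ p : P, CC p * ∫ y : Fin 2 → ℂ, (χ y : ℂ) * DD p y := by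
      have h6 : ∀ y, (χ y : ℂ) *
          (wedge (theta v₁ D h (a 0) (φ 0)) (theta v₁ D h (a 1) (φ 1)) y *
          conj (wedge (theta v₁ D h (b 0) (ψ 0)) (theta v₁ D h (b 1) (ψ 1)) y)) =
          ∑ p : P, CC p * ((χ y : ℂ) * DD p y) := by
        intro y
        by_cases hy : y ∈ ball (ev v₁ h)
        · rw [hsum y hy, Finset.mul_sum]
          refine Finset.sum_congr rfl fun p _ => ?_
          ring
        · have h7 : χ y = 0 := by
            by_contra h8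
            exact hy (hχ.supp (subset_tsupport _ h8))
          simp [h7]
      simp only [h6]
      rw [integral_finsetSum]
      · refine Finset.sum_congr rfl fun p _ => ?_
        rw [integral_const_mul]
      · intro p _
        apply Integrable.const_mul
        exact int_wt hχ (det_cont (t := t) (r := id) (t' := t) hΦ (hmap p) (fun a => rfl))
    by_contra hcon
    push Not at hcon
    apply h4
    rw [h5]
    exact Finset.sum_eq_zero fun p _ => by rw [hcon p, mul_zero]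
  obtain ⟨p, hp⟩ := hne
  refine Submodule.span_mono ?_ (ee_mem hΦ hχ (hmap p) hp)
  rintro _ ⟨x, rfl⟩
  exact ⟨h, Γ, χ, _, _, hs1, hs2, hs3, hAr, hCo, hχ,
    fun j => isMap_fx (i := fun s => (t s).1) (hmap p) (fun s => (x s).2) j, rfl⟩

/-- **Two-dimensional Hodge classes on abelian varieties of CM type are algebraic.** -/
theorem hodge2 (hS : SURF) (p2 : P2) : HODGE2 := by
  classical
  intro F E _ _ _ _ _ D δ v₁ τ₀ H ι _ Φ hΦ u hu hH
  refine mem_of_alt (alt_of_mem hu) fun t ht => ?_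
  choose σ hσ using fun a => H.exists_gal (t a).2
  -- all conjugates are of type (2,2)
  have hb : ∀ g : E ≃+* E, {a | gg τ₀ g (σ a) ∈ Φ (t a).1}.ncard = 2 := by
    intro g
    obtain ⟨U, hU⟩ := gal_of_mem τ₀ hu (fun a => (t a).1) σ
    have h1 : u t = τ₀ U := by
      have := hU (RingEquiv.refl E)
      have e : (fun a => ((t a).1, gg τ₀ (RingEquiv.refl E) (σ a))) = t := by
        funext a
        refine Prod.ext rfl ?_
        change gg τ₀ (RingEquiv.refl E) (σ a) = (t a).2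
        rw [hσ a]
        ext x; rfl
      rw [e] at this
      exact this
    have h2 : U ≠ 0 := by
      rintro rfl
      exact ht (by rw [h1, map_zero])
    have h3 : u (fun a => ((t a).1, gg τ₀ g (σ a))) ≠ 0 := by
      rw [hU g]
      intro h
      exact h2 (g.injective (τ₀.injective (by rw [h, map_zero, map_zero])))
    by_contra h4
    exact h3 (hH _ h4)
  -- sort
  have hcard : (Finset.univ.filter (fun a => decide ((t a).2 ∈ Φ (t a).1) = true)).card = 2 := by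
    have h1 := hb (RingEquiv.refl E)
    have h2 : {a | gg τ₀ (RingEquiv.refl E) (σ a) ∈ Φ (t a).1} = {a | (t a).2 ∈ Φ (t a).1} := by
      ext a
      have e : gg τ₀ (RingEquiv.refl E) (σ a) = (t a).2 := by
        rw [hσ a]
        ext x; rfl
      simp only [Set.mem_ofPred_eq, e]
    rw [h2, Set.ncard_eq_toFinset_card'] at h1
    simpa using h1
  obtain ⟨π, q0, q1, q2, q3⟩ := exists_sort _ hcard
  simp only [decide_eq_true_eq, decide_eq_false_iff_not] at q0 q1 q2 q3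
  have h5 : ee (t ∘ π) ∈ Submodule.span ℂ (SurfCl v₁ D Φ) := by
    refine ee_mem_sorted hS p2 H hΦ (σ := σ ∘ π) (fun a => hσ (π a)) ?_ q0 q1 q2 q3
    intro g
    have h6 := hb g
    have h7 : {a | gg τ₀ g ((σ ∘ π) a) ∈ Φ ((t ∘ π) a).1} =
        π ⁻¹' {a | gg τ₀ g (σ a) ∈ Φ (t a).1} := rfl
    rw [h7, Set.ncard_preimage_of_injective_subset_range π.injective]
    · exact h6
    · intro a _
      exact ⟨π.symm a, by simp⟩
  rw [ee_comp] at h5
  have h6 : ((Equiv.Perm.sign π : ℤ) : ℂ) * ((Equiv.Perm.sign π : ℤ) : ℂ) = 1 := by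
    rcases Int.units_eq_one_or (Equiv.Perm.sign π) with h | h <;> simp [h]
  have h7 : ee t = ((Equiv.Perm.sign π : ℤ) : ℂ) • (((Equiv.Perm.sign π : ℤ) : ℂ) • ee t) := by
    rw [smul_smul, h6, one_smul]
  rw [h7]
  exact Submodule.smul_mem _ _ h5

end Pool.Agent.CMH
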