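import Pool.Agent.Lib.CMH2.Alg

/-!
# Sums of maps to a product of tori, and their classes (helper51)
-/

open scoped ComplexConjugate Matrix
open Complex

namespace Pool.Agent.CMH

variable {ι E : Type} [Field E]

theorem isOpen_ball' (k : Fin 3 → ℝ) : IsOpen (ball k) := by
  unfold ball
  exact isOpen_lt (by fun_prop) continuous_const

/-- `∑ x_s f_s`, the sum over the `s` with `i s = j`, a map to the `j`-th torus -/
noncomputable def fx (i : Fin 4 → ι) (f : Fin 4 → (E →+* ℂ) → (Fin 2 → ℂ) → ℂ) (x : Fin 4 → E)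
    (j : ι) (τ : E →+* ℂ) (y : Fin 2 → ℂ) : ℂ :=
  ∑ s, (open Classical in if i s = j then τ (x s) else 0) * f s τ y

noncomputable def lx (i : Fin 4 → ι) (ℓ : Fin 4 → SL3 → E) (x : Fin 4 → E) (j : ι) (γ : SL3) : E :=
  ∑ s, (open Classical in if i s = j then x s else 0) * ℓ s γ

variable {k : Fin 3 → ℝ} {Γ : Subgroup SL3} {Φ : ι → Set (E →+* ℂ)} {i : Fin 4 → ι}
  {f : Fin 4 → (E →+* ℂ) → (Fin 2 → ℂ) → ℂ} {ℓ : Fin 4 → SL3 → E}

theorem isMap_fx (hf : ∀ s, IsMap k Γ (Φ (i s)) (f s) (ℓ s)) {x : Fin 4 → E}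
    (hx : ∀ s, IsIntegral ℤ (x s)) (j : ι) : IsMap k Γ (Φ j) (fx i f x j) (lx i ℓ x j) := by
  classical
  refine ⟨?_, ?_, ?_⟩
  · intro γ hγ
    refine IsIntegral.sum _ fun s _ => IsIntegral.mul ?_ ((hf s).int γ hγ)
    by_cases h : i s = j
    · rw [if_pos h]; exact hx s
    · rw [if_neg h]; exact isIntegral_zero
  · intro τ hτ y hy
    refine Finset.analyticAt_fun_sum _ fun s _ => ?_
    by_cases h : i s = j
    · refine AnalyticAt.fun_mul analyticAt_const ((hf s).hol τ ?_ y hy)
      rw [h]; exact hτ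
    · simp only [if_neg h, zero_mul]; exact analyticAt_const
  · intro τ hτ γ hγ y hy
    unfold fx lx
    rw [map_sum, ← Finset.sum_add_distrib]
    refine Finset.sum_congr rfl fun s _ => ?_
    by_cases h : i s = j
    · subst h
      simp only [if_true]
      rw [(hf s).per τ hτ γ hγ y hy, map_mul]
      ring
    · simp only [if_neg h, zero_mul, map_zero, add_zero]

theorem pull_fx (hΦ : ∀ j, IsCMType (Φ j)) (hf : ∀ s, IsMap k Γ (Φ (i s)) (f s) (ℓ s))
    (x : Fin 4 → E) (j : ι) (τ : E →+* ℂ) {y : Fin 2 → ℂ} (hy : y ∈ ball k) :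
    pull (Φ j) (fx i f x j) τ y =
      ∑ s, (open Classical in if i s = j then τ (x s) else 0) • pull (Φ j) (f s) τ y := by
  classical
  -- derivative of the sum
  have hd : ∀ τ' ∈ Φ j, ∀ v : Fin 2 → ℂ, fderiv ℂ (fx i f x j τ') y v =
      ∑ s, (if i s = j then τ' (x s) else 0) * fderiv ℂ (f s τ') y v := by
    intro τ' hτ' v
    have h1 : HasFDerivAt (fx i f x j τ')
        (∑ s, (if i s = j then τ' (x s) else 0) • fderiv ℂ (f s τ') y) y := by
      have h2 : ∀ s ∈ (Finset.univ : Finset (Fin 4)),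
          HasFDerivAt (fun y => (if i s = j then τ' (x s) else 0) * f s τ' y)
            ((if i s = j then τ' (x s) else 0) • fderiv ℂ (f s τ') y) y := by
        intro s _
        by_cases h : i s = j
        · have h2 := ((hf s).hol τ' (by rw [h]; exact hτ') y hy).differentiableAt.hasFDerivAt
          exact h2.const_mul _
        · rw [if_neg h]
          have h5 : HasFDerivAt (fun _ : Fin 2 → ℂ => (0 : ℂ)) (0 : (Fin 2 → ℂ) →L[ℂ] ℂ) y :=
            hasFDerivAt_const 0 y
          have e1 : (fun y => 0 * f s τ' y) = fun _ => (0 : ℂ) := by funext z; exact zero_mul _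
          have e2 : (0 : ℂ) • fderiv ℂ (f s τ') y = (0 : (Fin 2 → ℂ) →L[ℂ] ℂ) := by
            ext v
            exact zero_mul _
          rw [e1, e2]
          exact h5
      exact HasFDerivAt.fun_sum h2
    rw [h1.fderiv, sum_apply]
    rfl
  by_cases hτ : τ ∈ Φ j
  · simp only [pull, if_pos hτ]
    funext a
    rw [Finset.sum_apply]
    fin_cases a
    · exact hd τ hτ _
    · exact hd τ hτ _
    · change (0 : ℂ) = ∑ s, (if i s = j then τ (x s) else 0) * 0
      simp
    · change (0 : ℂ) = ∑ s, (if i s = j then τ (x s) else 0) * 0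
      simp
  · have hτ' : cj τ ∈ Φ j := (hΦ j τ).2 hτ
    simp only [pull, if_neg hτ]
    have h3 : ∀ v, conj (fderiv ℂ (fx i f x j (cj τ)) y v) =
        ∑ s, (if i s = j then τ (x s) else 0) * conj (fderiv ℂ (f s (cj τ)) y v) := by
      intro v
      rw [hd _ hτ', map_sum]
      refine Finset.sum_congr rfl fun s _ => ?_
      rw [map_mul]
      congr 1
      by_cases h : i s = j
      · simp [h]
      · simp [h]
    funext a
    rw [Finset.sum_apply]
    fin_cases a
    · change (0 : ℂ) = ∑ s, (if i s = j then τ (x s) else 0) * 0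
      simp
    · change (0 : ℂ) = ∑ s, (if i s = j then τ (x s) else 0) * 0
      simp
    · exact h3 _
    · exact h3 _

/-- the pulled back forms are continuous on the ball -/
theorem pull_cont (hΦ : ∀ j, IsCMType (Φ j)) {j : ι} {f : (E →+* ℂ) → (Fin 2 → ℂ) → ℂ}
    {ℓ : SL3 → E} (hf : IsMap k Γ (Φ j) f ℓ) (τ : E →+* ℂ) :
    ContinuousOn (pull (Φ j) f τ) (ball k) := by
  have hd : ∀ τ' ∈ Φ j, ∀ v : Fin 2 → ℂ, ContinuousOn (fun y => fderiv ℂ (f τ') y v) (ball k) := by
    intro τ' hτ' v
    exact ((hf.hol τ' hτ').fderiv.continuousOn).clm_apply continuousOn_const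
  rw [continuousOn_pi]
  intro a
  by_cases hτ : τ ∈ Φ j
  · simp only [pull, if_pos hτ]
    fin_cases a
    · exact hd τ hτ _
    · exact hd τ hτ _
    · exact continuousOn_const
    · exact continuousOn_const
  · have hτ' : cj τ ∈ Φ j := (hΦ j τ).2 hτ
    simp only [pull, if_neg hτ]
    fin_cases a
    · exact continuousOn_const
    · exact continuousOn_const
    · exact (Complex.continuous_conj.comp_continuousOn (hd _ hτ' _))
    · exact (Complex.continuous_conj.comp_continuousOn (hd _ hτ' _))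

/-- integrability against a weight -/
theorem int_wt {χ : (Fin 2 → ℂ) → ℝ} (hχ : IsWt k Γ χ) {g : (Fin 2 → ℂ) → ℂ}
    (hg : ContinuousOn g (ball k)) : MeasureTheory.Integrable (fun y => (χ y : ℂ) * g y) := by
  have hcs : HasCompactSupport (fun y => (χ y : ℂ)) := hχ.comp.comp_left (g := fun r : ℝ => (r : ℂ)) rfl
  have hcs2 : HasCompactSupport (fun y => (χ y : ℂ) * g y) := hcs.mul_right
  have hsub : tsupport (fun y => (χ y : ℂ) * g y) ⊆ ball k := by
    refine subset_trans (tsupport_mul_subset_left) ?_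
    refine subset_trans ?_ hχ.supp
    apply closure_mono
    intro y hy
    simp only [Function.mem_support, ne_eq, ofReal_eq_zero] at hy ⊢
    exact hy
  have hc : ContinuousOn (fun y => (χ y : ℂ) * g y) (ball k) :=
    (Complex.continuous_ofReal.comp hχ.cont).continuousOn.mul hg
  exact (hc.continuous_of_tsupport_subset (isOpen_ball' k) hsub).integrable_of_hasCompactSupport hcs2

end Pool.Agent.CMH
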