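import Pool.Agent.Lib.CMH.Final

/-!
# Two-dimensional Hodge classes on abelian varieties of CM type (helper51)

`F` is a totally real number field, `E = F(δ)`, `δ² = -D`, a CM field which is Galois over `ℚ`.
For CM types `Φ i` of `E` (sets of embeddings `E → ℂ`) we consider the complex abelian variety
`A = ∏ i, ℂ^(Φ i) / Φ i (𝓞 E)`.  Every complex abelian variety of CM type is isogenous to a direct
factor of such an `A`, for a suitable `E`.

`H₁(A, ℚ) = (ι → E)`.  A constant one-form `dz_s` on `A` is given by `s = (i, τ)`: its period over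
the loop `x : ι → E` is `τ (x i)`; it is of type `(1,0)` if `τ ∈ Φ i` and of type `(0,1)` otherwise.
A class in `H₄(A, ℂ)` is given by its pairings with the forms `dz_{t 0} ∧ dz_{t 1} ∧ dz_{t 2} ∧ dz_{t 3}`,
that is by a function of `t : Fin 4 → ι × (E →+* ℂ)`.
-/

open scoped ComplexConjugate Matrix
open Complex

namespace Pool.Agent.CMH

noncomputable section

/-- Indices of the constant one-forms `dz_(i, τ)`. -/
abbrev Idx (ι E : Type) [Field E] : Type := ι × (E →+* ℂ)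

section torus

variable {ι : Type} {E : Type} [Field E]

/-- The complex conjugate of an embedding. -/
def cj (τ : E →+* ℂ) : E →+* ℂ := (starRingEnd ℂ).comp τ

/-- `Φ` is a CM type: it contains exactly one embedding out of each pair of conjugate ones. -/
def IsCMType (Φ : Set (E →+* ℂ)) : Prop := ∀ τ, cj τ ∈ Φ ↔ τ ∉ Φ

/-- The class in `H₄(A, ℚ)` of the real `4`-torus spanned by the loops `x 0, x 1, x 2, x 3`. -/
def torusClass (x : Fin 4 → ι → E) (t : Fin 4 → Idx ι E) : ℂ :=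
  Matrix.det (Matrix.of fun a b => (t a).2 (x b (t a).1))

/-- `H₄(A, ℚ)`. -/
def H4Q (ι E : Type) [Field E] : Submodule ℚ ((Fin 4 → Idx ι E) → ℂ) :=
  Submodule.span ℚ (Set.range torusClass)

/-- `u` is a Hodge class: its pairing with all constant `4`-forms which are not of type `(2,2)`
vanishes. -/
def IsHodge (Φ : ι → Set (E →+* ℂ)) (u : (Fin 4 → Idx ι E) → ℂ) : Prop :=
  ∀ t : Fin 4 → Idx ι E, {a | (t a).2 ∈ Φ (t a).1}.ncard ≠ 2 → u t = 0

/-- `(f, ℓ)` is a holomorphic map from `Γ\ball` to the complex torus `ℂ^Φ / Φ(𝓞 E)`: `f τ`, `τ ∈ Φ`,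
are holomorphic functions on the ball with `f τ (γ y) = f τ y + τ (ℓ γ)`, where `ℓ γ` does not depend
on `τ` and lies in the ring of integers of `E`. -/
structure IsMap (k : Fin 3 → ℝ) (Γ : Subgroup SL3) (Φ : Set (E →+* ℂ))
    (f : (E →+* ℂ) → (Fin 2 → ℂ) → ℂ) (ℓ : SL3 → E) : Prop where
  int : ∀ γ ∈ Γ, IsIntegral ℤ (ℓ γ)
  hol : ∀ τ ∈ Φ, AnalyticOnNhd ℂ (f τ) (ball k)
  per : ∀ τ ∈ Φ, ∀ γ ∈ Γ, ∀ y ∈ ball k, f τ (actC γ y) = f τ y + τ (ℓ γ)

open Classical in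
/-- The pull back `f^* dz_τ` in the basis `dy₀, dy₁, conj dy₀, conj dy₁`: this is `d (f τ)` for
`τ ∈ Φ`, and the complex conjugate of `d (f (cj τ))` for `τ ∉ Φ`. -/
def pull (Φ : Set (E →+* ℂ)) (f : (E →+* ℂ) → (Fin 2 → ℂ) → ℂ) (τ : E →+* ℂ) (y : Fin 2 → ℂ) :
    Fin 4 → ℂ :=
  if τ ∈ Φ then
    ![fderiv ℂ (f τ) y (Pi.single 0 1), fderiv ℂ (f τ) y (Pi.single 1 1), 0, 0]
  else
    ![0, 0, conj (fderiv ℂ (f (cj τ)) y (Pi.single 0 1)),
      conj (fderiv ℂ (f (cj τ)) y (Pi.single 1 1))]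

/-- The class in `H₄(A, ℂ)` of the map `f : Γ\ball → A`: the integrals over `Γ\ball` (over the ball,
against a weight `χ`) of `f^* (dz_{t 0} ∧ dz_{t 1} ∧ dz_{t 2} ∧ dz_{t 3})`. -/
def cls (Φ : ι → Set (E →+* ℂ)) (χ : (Fin 2 → ℂ) → ℝ)
    (f : ι → (E →+* ℂ) → (Fin 2 → ℂ) → ℂ) (t : Fin 4 → Idx ι E) : ℂ :=
  ∫ y : Fin 2 → ℂ, (χ y : ℂ) *
    Matrix.det (Matrix.of fun a => pull (Φ (t a).1) (f (t a).1) (t a).2 y)

end torus

section arith

variable {F : Type} [Field F] [NumberField F] {ι : Type} {E : Type} [Field E]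

/-- The classes of the holomorphic maps from compact ball quotients `Γ\ball` to `A`, where `Γ` is
an arithmetic subgroup of `SU(h)`, `h` a hermitian form over `F(√-D)` of signature `(2,1)` at `v₁`
and definite at all other places. -/
def SurfCl (v₁ : F →+* ℝ) (D : F) (Φ : ι → Set (E →+* ℂ)) : Set ((Fin 4 → Idx ι E) → ℂ) :=
  {u | ∃ (h : Fin 3 → F) (Γ : Subgroup SL3) (χ : (Fin 2 → ℂ) → ℝ)
      (f : ι → (E →+* ℂ) → (Fin 2 → ℂ) → ℂ) (ℓ : ι → SL3 → E),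
    (∀ v : F →+* ℝ, 0 < v (h 0) ∧ 0 < v (h 1)) ∧ v₁ (h 2) < 0 ∧ (∀ v, v ≠ v₁ → 0 < v (h 2)) ∧
    IsArith v₁ D h Γ ∧ Cocompact (ev v₁ h) Γ ∧ IsWt (ev v₁ h) Γ χ ∧
    (∀ i, IsMap (ev v₁ h) Γ (Φ i) (f i) (ℓ i)) ∧ u = cls Φ χ f}

/-- The data `E = F(δ)`, `δ² = -D`, `E/ℚ` Galois, `F` totally real of degree at least two, `D`
integral and totally positive, `τ₀ : E → ℂ` above `v₁` with `τ₀ δ` in the upper half plane. -/
structure CMData (F E : Type) [Field F] [NumberField F] [Field E] [NumberField E] [Algebra F E]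
    (D : F) (δ : E) (v₁ : F →+* ℝ) (τ₀ : E →+* ℂ) : Prop where
  real : NumberField.IsTotallyReal F
  galois : IsGalois ℚ E
  int : IsIntegral ℤ D
  pos : ∀ v : F →+* ℝ, 0 < v D
  two : ∃ v : F →+* ℝ, v ≠ v₁
  sq : δ ^ 2 = -algebraMap F E D
  gen : ∀ x : E, ∃ a b : F, x = algebraMap F E a + algebraMap F E b * δ
  above : ∀ a : F, τ₀ (algebraMap F E a) = v₁ a
  upper : 0 < (τ₀ δ).im

/-- The reflex of the CM type `{τ | Im τ(δ a) > 0}` with respect to `τ₀`. -/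
def reflex {F E : Type} [Field F] [Field E] [Algebra F E] (δ : E) (τ₀ : E →+* ℂ) (a : F) :
    Set (E →+* ℂ) :=
  {τ | ∃ g : E ≃+* E, τ = τ₀.comp (g : E →+* E) ∧ 0 < (τ₀ (g.symm (δ * algebraMap F E a))).im}

/-- **The theorem of Kazhdan, Shimura and Murty-Ramakrishnan on the CM type of theta one-forms.**
An invariant theta one-form `v_a(φ)` on `Γ\ball` is a linear combination `∑ c_j p_j^* (dz_{τ₀})` of
pull backs under holomorphic maps `p_j : Γ\ball → ℂ^(Φ*) / Φ*(𝓞 E)`, where `Φ*` is the reflex of the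
CM type given by the signs of `a`. -/
def P2 : Prop :=
  ∀ (F E : Type) [Field F] [NumberField F] [Field E] [NumberField E] [Algebra F E]
    (D : F) (δ : E) (v₁ : F →+* ℝ) (τ₀ : E →+* ℂ), CMData F E D δ v₁ τ₀ →
    ∀ (h : Fin 3 → F) (Γ : Subgroup SL3) (a : F) (φ : (Fin 3 → F) → ℂ),
    (∀ v : F →+* ℝ, 0 < v (h 0) ∧ 0 < v (h 1)) → v₁ (h 2) < 0 → (∀ v, v ≠ v₁ → 0 < v (h 2)) →
    IsArith v₁ D h Γ → 0 < v₁ a → IsSB φ → InvOne (ev v₁ h) Γ (theta v₁ D h a φ) →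
    ∃ (J : ℕ) (c : Fin J → ℂ) (p : Fin J → (E →+* ℂ) → (Fin 2 → ℂ) → ℂ) (ℓ : Fin J → SL3 → E),
      (∀ j, IsMap (ev v₁ h) Γ (reflex δ τ₀ a) (p j) (ℓ j)) ∧
      ∀ y ∈ ball (ev v₁ h), ∀ i, theta v₁ D h a φ i y =
        ∑ j, c j * fderiv ℂ (p j τ₀) y (Pi.single i 1)

/-- **All two-dimensional Hodge classes on abelian varieties of CM type are algebraic**: they are
linear combinations of classes of compact surfaces. -/
def HODGE2 : Prop :=
  ∀ (F E : Type) [Field F] [NumberField F] [Field E] [NumberField E] [Algebra F E]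
    (D : F) (δ : E) (v₁ : F →+* ℝ) (τ₀ : E →+* ℂ), CMData F E D δ v₁ τ₀ →
    ∀ (ι : Type) [Finite ι] (Φ : ι → Set (E →+* ℂ)), (∀ i, IsCMType (Φ i)) →
    ∀ u ∈ H4Q ι E, IsHodge Φ u → u ∈ Submodule.span ℂ (SurfCl v₁ D Φ)

end arith

end

end Pool.Agent.CMH
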