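import Pool.Agent.Lib.CMH2.Gal

/-!
# Sign vectors and reflex types (helper51)
-/

open scoped ComplexConjugate Matrix
open Complex

namespace Pool.Agent.CMH

variable {F E : Type} [Field F] [NumberField F] [Field E] [NumberField E] [Algebra F E]
  {D : F} {δ : E} {v₁ : F →+* ℝ} {τ₀ : E →+* ℂ}

/-- `τ₀ ∘ g ∘ σ` -/
abbrev gg (τ₀ : E →+* ℂ) (g σ : E ≃+* E) : E →+* ℂ := τ₀.comp ((g : E →+* E).comp (σ : E →+* E))

open Classical in
/-- The sign vector of the eigenline `(Φ, τ₀ ∘ σ)`. -/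
noncomputable def sv (F : Type) [Field F] [Algebra F E] (δ : E) (τ₀ : E →+* ℂ)
    (Φ : Set (E →+* ℂ)) (σ : E ≃+* E) : CMType F := fun v =>
  decide (∃ g : E ≃+* E, (∀ a : F, τ₀ (g.symm (algebraMap F E a)) = v a) ∧
    0 < (τ₀ (g.symm δ)).im ∧ gg τ₀ g σ ∈ Φ)

theorem gg_cj {c : E ≃+* E}
    (hc : ∀ τ : E →+* ℂ, cj τ = τ.comp (c : E →+* E)) (g σ : E ≃+* E) :
    gg τ₀ g (σ.trans c) = cj (gg τ₀ g σ) := by
  ext x
  have h1 := congrArg (fun k : E →+* ℂ => k (σ x)) (hc (τ₀.comp (g : E →+* E)))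
  simp only [cj_apply, RingHom.comp_apply, RingHom.coe_coe] at h1
  simp only [cj_apply, RingHom.comp_apply, RingHom.coe_coe, RingEquiv.coe_trans, Function.comp_apply]
  exact h1.symm

theorem gg_cj' {c : E ≃+* E}
    (hc : ∀ τ : E →+* ℂ, cj τ = τ.comp (c : E →+* E)) (g σ : E ≃+* E) :
    gg τ₀ (g.trans c) σ = cj (gg τ₀ g σ) := by
  ext x
  have h1 := congrArg (fun k : E →+* ℂ => k (g (σ x))) (hc τ₀)
  simp only [cj_apply, RingHom.comp_apply, RingHom.coe_coe] at h1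
  simp only [cj_apply, RingHom.comp_apply, RingHom.coe_coe, RingEquiv.coe_trans, Function.comp_apply]
  exact h1.symm

/-- the value of the sign vector at the place of `τ₀ ∘ g⁻¹`, `Im τ₀(g⁻¹ δ) > 0` -/
theorem sv_iff (H : CMData F E D δ v₁ τ₀) (Φ : Set (E →+* ℂ)) (σ g : E ≃+* E) {v : F →+* ℝ}
    (hv : ∀ a : F, τ₀ (g.symm (algebraMap F E a)) = v a) (hδ : 0 < (τ₀ (g.symm δ)).im) :
    sv F δ τ₀ Φ σ v = true ↔ gg τ₀ g σ ∈ Φ := by
  simp only [sv, decide_eq_true_eq]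
  constructor
  · rintro ⟨g', h1, h2, h3⟩
    have h4 : τ₀.comp (g'.symm : E →+* E) = τ₀.comp (g.symm : E →+* E) :=
      H.ext_emb (v := v) h1 hv h2 hδ
    have h5 : g'.symm = g.symm := by
      ext x
      exact τ₀.injective (congrArg (fun k : E →+* ℂ => k x) h4)
    have h6 : g' = g := by
      rw [← g'.symm_symm, h5, g.symm_symm]
    rwa [← h6]
  · intro h
    exact ⟨g, hv, hδ, h⟩

theorem exists_place (H : CMData F E D δ v₁ τ₀) (v : F →+* ℝ) :
    ∃ g : E ≃+* E, (∀ a : F, τ₀ (g.symm (algebraMap F E a)) = v a) ∧ 0 < (τ₀ (g.symm δ)).im := by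
  obtain ⟨τ, h1, h2⟩ := H.exists_emb v
  obtain ⟨g, hg⟩ := H.exists_gal τ
  refine ⟨g.symm, ?_, ?_⟩
  · intro a
    rw [← h1, hg]
    rfl
  · rw [hg] at h2
    exact h2

theorem bar_sv (H : CMData F E D δ v₁ τ₀) {c : E ≃+* E}
    (hc : ∀ τ : E →+* ℂ, cj τ = τ.comp (c : E →+* E)) {Φ : Set (E →+* ℂ)} (hΦ : IsCMType Φ)
    (σ : E ≃+* E) : bar (sv F δ τ₀ Φ σ) = sv F δ τ₀ Φ (σ.trans c) := by
  funext v
  obtain ⟨g, h1, h2⟩ := exists_place H v
  have h3 := sv_iff H Φ σ g h1 h2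
  have h4 := sv_iff H Φ (σ.trans c) g h1 h2
  rw [gg_cj hc, hΦ, ← h3] at h4
  unfold bar
  cases h5 : sv F δ τ₀ Φ σ v <;> cases h6 : sv F δ τ₀ Φ (σ.trans c) v <;> simp_all

/-- the signs of `a` -/
theorem pos_iff (H : CMData F E D δ v₁ τ₀) {Φ : Set (E →+* ℂ)} (hΦ : IsCMType Φ) {σ : E ≃+* E}
    {a : F} (ha0 : a ≠ 0) (ha : sgn a = sv F δ τ₀ Φ σ) (g : E ≃+* E) :
    0 < (τ₀ (g.symm (δ * algebraMap F E a))).im ↔ gg τ₀ g σ ∈ Φ := by
  obtain ⟨c, hc, hcc⟩ := H.exists_conj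
  set τ : E →+* ℂ := τ₀.comp (g.symm : E →+* E) with hτ
  obtain ⟨v, hv⟩ := H.real_on τ
  have hva : v a ≠ 0 := fun h => ha0 (v.injective (h.trans (map_zero v).symm))
  have e1 : (τ₀ (g.symm (δ * algebraMap F E a))).im = (τ δ).im * v a := by
    have : τ₀ (g.symm (δ * algebraMap F E a)) = τ δ * v a := by
      rw [← hv, ← map_mul]; rfl
    rw [this, mul_im, ofReal_re, ofReal_im]
    ring
  have hsg : sgn a v = true ↔ 0 < v a := by unfold sgn; rw [decide_eq_true_iff]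
  rw [e1]
  rcases lt_or_gt_of_ne (H.im_ne τ) with h | h
  · -- the conjugate embedding
    have h1 : ∀ b : F, τ₀ ((g.trans c).symm (algebraMap F E b)) = v b := by
      intro b
      have h2 : τ₀ ((g.trans c).symm (algebraMap F E b)) = cj τ (algebraMap F E b) := by
        rw [hc τ]
        have h3 : c.symm (algebraMap F E b) = c (algebraMap F E b) := by
          rw [RingEquiv.symm_apply_eq, hcc]
        change τ₀ (g.symm (c.symm _)) = τ₀ (g.symm (c _))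
        rw [h3]
      rw [h2, cj_apply, hv, conj_ofReal]
    have h2 : 0 < (τ₀ ((g.trans c).symm δ)).im := by
      have h3 : τ₀ ((g.trans c).symm δ) = cj τ δ := by
        rw [hc τ]
        have h3 : c.symm δ = c δ := by rw [RingEquiv.symm_apply_eq, hcc]
        change τ₀ (g.symm (c.symm _)) = τ₀ (g.symm (c _))
        rw [h3]
      rw [h3, cj_apply, conj_im]
      linarith
    have h3 := sv_iff H Φ σ (g.trans c) h1 h2
    rw [← ha, hsg, gg_cj' hc, hΦ] at h3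
    constructor
    · intro h4
      by_contra h5
      have h6 := h3.2 h5
      have := mul_neg_of_neg_of_pos h h6
      linarith
    · intro h4
      have h5 : ¬ 0 < v a := fun h6 => (h3.1 h6) h4
      have h6 : v a < 0 := lt_of_le_of_ne (not_lt.1 h5) hva
      exact mul_pos_of_neg_of_neg h h6
  · have h3 := sv_iff H Φ σ g (v := v) hv h
    rw [← ha, hsg] at h3
    rw [← h3]
    constructor
    · intro h4
      exact (mul_pos_iff_of_pos_left h).1 h4
    · exact fun h4 => mul_pos h h4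

/-- transfer of a map to the torus of the reflex type -/
theorem map_transfer (H : CMData F E D δ v₁ τ₀) {Φ : Set (E →+* ℂ)} (hΦ : IsCMType Φ)
    {σ : E ≃+* E} {a : F} (ha0 : a ≠ 0) (ha : sgn a = sv F δ τ₀ Φ σ) {k : Fin 3 → ℝ}
    {Γ : Subgroup SL3} {p : (E →+* ℂ) → (Fin 2 → ℂ) → ℂ} {ℓ : SL3 → E}
    (hp : IsMap k Γ (reflex δ τ₀ a) p ℓ) :
    IsMap k Γ Φ (fun τ => p (τ.comp (σ.symm : E →+* E))) (fun γ => σ.symm (ℓ γ)) := by
  have hmem : ∀ τ ∈ Φ, τ.comp (σ.symm : E →+* E) ∈ reflex δ τ₀ a := by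
    intro τ hτ
    obtain ⟨g', hg'⟩ := H.exists_gal τ
    refine ⟨σ.symm.trans g', ?_, ?_⟩
    · rw [hg']; rfl
    · rw [pos_iff H hΦ ha0 ha]
      have : gg τ₀ (σ.symm.trans g') σ = τ := by
        rw [hg']
        ext x
        simp
      rwa [this]
  refine ⟨?_, ?_, ?_⟩
  · intro γ hγ
    exact map_isIntegral_int (σ.symm : E →+* E) (hp.int γ hγ)
  · intro τ hτ
    exact hp.hol _ (hmem τ hτ)
  · intro τ hτ γ hγ y hy
    exact hp.per _ (hmem τ hτ) γ hγ y hy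

end Pool.Agent.CMH
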